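import Pool.Agent.Helper50.GP.St

set_option autoImplicit false

namespace Pool.Agent.Helper22.GP

open Pool.Agent.Helper50.GP

private theorem lift_hom {ι A B : Type} [Group A] [Group B] (f : A →* B) (z : ι → A)
    (ω : FreeGroup ι) : FreeGroup.lift (fun k => f (z k)) ω = f (FreeGroup.lift z ω) := by
  have : FreeGroup.lift (fun k => f (z k)) = f.comp (FreeGroup.lift z) := by
    apply FreeGroup.ext_hom
    intro a
    simp
  rw [this]
  rfl

theorem hHZI (hPER : StPER) (hCEN : StCEN) (hFHF : StFHF) : StHZI := by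
  intro p q m g e1 e2 lam hp hPar ρ hfin N ω hN hω G _ w c hFr
  obtain ⟨_, hper, _⟩ := hPER p q m g e1 e2 hPar N ω hN G w c hFr
  have hcen := hCEN p q m g e1 e2 hPar N ω hN G w c hFr
  obtain ⟨x, hx⟩ : ∃ x : G, x = w ^ (p * (p - 1)) := ⟨_, rfl⟩
  rw [← hx] at hper hcen ⊢
  obtain ⟨H0, hH0⟩ : ∃ H0 : Subgroup G,
      H0 = Subgroup.closure (Set.range (fun j : ℤ => xl x c (p * j))) := ⟨_, rfl⟩
  rw [← hH0]
  -- periodicity
  have hmod : ∀ j : ℤ, xl x c (p * j) = xl x c (p * (((j : ZMod p)).val : ℤ)) := by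
    intro j
    apply hper
    rw [ZMod.intCast_eq_intCast_iff]
    have h1 : j ≡ (((j : ZMod p)).val : ℤ) [ZMOD (p : ℤ)] := by
      rw [ZMod.val_intCast]
      exact (Int.mod_modEq j p).symm
    have h2 := Int.ModEq.mul_left' (c := (p : ℤ)) h1
    have h3 : ((p ^ 2 : ℕ) : ℤ) = (p : ℤ) * p := by push_cast; ring
    rw [h3]
    exact h2
  have hmem : ∀ j : ℤ, xl x c (p * j) ∈ H0 := by
    intro j
    rw [hH0]
    exact Subgroup.subset_closure ⟨j, rfl⟩
  obtain ⟨Y, hY⟩ : ∃ Y : ZMod p → H0, ∀ k, (Y k : G) = xl x c (p * (k.val : ℤ)) :=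
    ⟨fun k => ⟨xl x c (p * (k.val : ℤ)), hmem _⟩, fun k => rfl⟩
  have hYtop : Subgroup.closure (Set.range Y) = (⊤ : Subgroup H0) := by
    apply Subgroup.map_injective H0.subtype_injective
    rw [MonoidHom.map_closure, ← MonoidHom.range_eq_map, Subgroup.range_subtype]
    have hset : (H0.subtype '' Set.range Y) = Set.range (fun j : ℤ => xl x c (p * j)) := by
      ext a
      constructor
      · rintro ⟨_, ⟨k, rfl⟩, rfl⟩
        exact ⟨(k.val : ℤ), (hY k).symm⟩
      · rintro ⟨j, rfl⟩
        refine ⟨Y (j : ZMod p), ⟨_, rfl⟩, ?_⟩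
        change (Y (j : ZMod p) : G) = xl x c (p * j)
        rw [hY, ← hmod j]
    rw [hset, hH0]
  have hfinH : Finite (H0 ⧸ Subgroup.center H0) := by
    refine hFHF p q m g e1 e2 lam hPar ρ hfin (H0 ⧸ Subgroup.center H0)
      (fun k => QuotientGroup.mk' (Subgroup.center H0) (Y k)) ?_ ?_
    · have h1 : Set.range (fun k => QuotientGroup.mk' (Subgroup.center H0) (Y k)) =
          (QuotientGroup.mk' (Subgroup.center H0)) '' Set.range Y := by
        rw [← Set.range_comp]
        rfl
      rw [h1, ← MonoidHom.map_closure, hYtop]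
      exact Subgroup.map_top_of_surjective _ (QuotientGroup.mk'_surjective _)
    · intro ω' hω' u v hu
      obtain ⟨r, hr, hrω⟩ := hω ω' hω'
      rw [lift_hom (QuotientGroup.mk' (Subgroup.center H0)) (fun k => Y (u * k + v)) ω']
      change ((FreeGroup.lift (fun k => Y (u * k + v)) ω' : H0) : H0 ⧸ Subgroup.center H0) = 1
      rw [QuotientGroup.eq_one_iff, Subgroup.mem_center_iff]
      intro h
      have hz : ((FreeGroup.lift (fun k => Y (u * k + v)) ω' : H0) : G) =
          FreeGroup.lift (fun k : ZMod p => xl x c (p * ((u * k + v).val : ℤ))) (ω r) := by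
        rw [hrω]
        have := lift_hom H0.subtype (fun k => Y (u * k + v)) ω'
        change H0.subtype (FreeGroup.lift (fun k => Y (u * k + v)) ω') = _
        rw [← this]
        congr 2
        funext k
        exact hY _
      apply Subtype.ext
      rw [Subgroup.coe_mul, Subgroup.coe_mul, hz]
      have hle : H0 ≤ Subgroup.centralizer
          {FreeGroup.lift (fun k : ZMod p => xl x c (p * ((u * k + v).val : ℤ))) (ω r)} := by
        rw [hH0, Subgroup.closure_le]
        rintro _ ⟨j, rfl⟩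
        rw [SetLike.mem_coe, Subgroup.mem_centralizer_iff]
        rintro _ rfl
        exact hcen r hr u v hu j
      have h2 := hle h.2
      rw [Subgroup.mem_centralizer_iff] at h2
      exact (h2 _ rfl).symm
  exact Subgroup.index_ne_zero_of_finite

end Pool.Agent.Helper22.GP
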